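import Pool.Agent.H33.G.R_seed8.H376R2.MR.Defs

/-!
Project MR, task SELW: Selberg weights with `|l d| ≤ 1`.
-/

set_option autoImplicit false

namespace Pool.Agent.H376R2.MR

open Finset
open scoped ArithmeticFunction.Moebius

/-- `μ²(m)/φ(m)` -/
noncomputable def sw_g (m : ℕ) : ℝ := if Squarefree m then 1 / (Nat.totient m : ℝ) else 0

theorem sw_g_nonneg (m : ℕ) : 0 ≤ sw_g m := by
  unfold sw_g; split_ifs <;> positivity

theorem sw_g_one : sw_g 1 = 1 := by
  unfold sw_g; simp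

theorem sw_g_mul {a b : ℕ} (h : Nat.Coprime a b) : sw_g (a * b) = sw_g a * sw_g b := by
  unfold sw_g
  rw [Nat.totient_mul h]
  by_cases ha : Squarefree a
  · by_cases hb : Squarefree b
    · rw [if_pos ((Nat.squarefree_mul h).2 ⟨ha, hb⟩), if_pos ha, if_pos hb]
      push_cast
      rw [one_div_mul_one_div]
    · rw [if_neg (fun h2 => hb ((Nat.squarefree_mul h).1 h2).2), if_neg hb, mul_zero]
  · rw [if_neg (fun h2 => ha ((Nat.squarefree_mul h).1 h2).1), if_neg ha, zero_mul]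

theorem sw_coprime {d c : ℕ} (h : Squarefree (d * c)) : Nat.Coprime d c :=
  (Nat.squarefree_mul_iff.1 h).1

theorem sw_phi_g {d : ℕ} (h : Squarefree d) : (Nat.totient d : ℝ) * sw_g d = 1 := by
  unfold sw_g
  rw [if_pos h]
  have h0 : 0 < Nat.totient d := Nat.totient_pos.2 (Nat.pos_of_ne_zero h.ne_zero)
  have : (0 : ℝ) < Nat.totient d := by exact_mod_cast h0
  field_simp

theorem sw_sum {d : ℕ} (h : Squarefree d) :
    (Nat.totient d : ℝ) * ∑ k ∈ d.divisors, sw_g k = d := by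
  rw [Finset.mul_sum]
  have h1 : ∀ k ∈ d.divisors, (Nat.totient d : ℝ) * sw_g k = (Nat.totient (d / k) : ℝ) := by
    intro k hk
    have hkd := Nat.dvd_of_mem_divisors hk
    obtain ⟨c, rfl⟩ := hkd
    have hk0 : k ≠ 0 := fun h0 => by rw [h0, zero_mul] at h; exact h.ne_zero rfl
    have hcop := sw_coprime h
    have hks : Squarefree k := ((Nat.squarefree_mul hcop).1 h).1
    rw [Nat.totient_mul hcop, Nat.mul_div_cancel_left c (Nat.pos_of_ne_zero hk0)]
    push_cast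
    calc (Nat.totient k : ℝ) * Nat.totient c * sw_g k =
        (Nat.totient k * sw_g k) * Nat.totient c := by ring
      _ = Nat.totient c := by rw [sw_phi_g hks, one_mul]
  rw [Finset.sum_congr rfl h1, Nat.sum_div_divisors d (fun x => (Nat.totient x : ℝ))]
  have := Nat.sum_totient d
  exact_mod_cast this

/-- the total mass -/
noncomputable def sw_G (D : ℕ) : ℝ := ∑ n ∈ Icc 1 D, sw_g n

theorem sw_G_pos {D : ℕ} (hD : 1 ≤ D) : 0 < sw_G D := by
  have h1 : sw_g 1 ≤ sw_G D :=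
    Finset.single_le_sum (f := sw_g) (fun i _ => sw_g_nonneg i) (Finset.mem_Icc.2 ⟨le_rfl, hD⟩)
  rw [sw_g_one] at h1
  linarith

/-- the key bound for `|l d| ≤ 1` -/
theorem sw_key (D d : ℕ) (hd : Squarefree d) :
    (d : ℝ) * ∑ m ∈ (Icc 1 D).filter (fun m => d ∣ m), sw_g m ≤ sw_G D := by
  have hd0 : 0 < d := Nat.pos_of_ne_zero hd.ne_zero
  set T : Finset ℕ := (Icc 1 D).filter (fun m => d ∣ m ∧ Squarefree m) with hT
  have h1 : ∑ m ∈ (Icc 1 D).filter (fun m => d ∣ m), sw_g m = ∑ m ∈ T, sw_g m := by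
    symm
    apply Finset.sum_subset
    · intro m hm
      rw [hT, Finset.mem_filter] at hm
      exact Finset.mem_filter.2 ⟨hm.1, hm.2.1⟩
    · intro m hm hmT
      rw [Finset.mem_filter] at hm
      have : ¬ Squarefree m := fun hs => hmT (Finset.mem_filter.2 ⟨hm.1, hm.2, hs⟩)
      unfold sw_g
      rw [if_neg this]
  have h2 : ∀ m ∈ T, (d : ℝ) * sw_g m = ∑ k ∈ d.divisors, sw_g (k * (m / d)) := by
    intro m hm
    rw [hT, Finset.mem_filter] at hm
    obtain ⟨_, ⟨c, rfl⟩, hs⟩ := hm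
    have hcop := sw_coprime hs
    rw [Nat.mul_div_cancel_left c hd0, sw_g_mul hcop]
    have e1 : ∀ k ∈ d.divisors, sw_g (k * c) = sw_g k * sw_g c := by
      intro k hk
      exact sw_g_mul (Nat.Coprime.coprime_dvd_left (Nat.dvd_of_mem_divisors hk) hcop)
    rw [Finset.sum_congr rfl e1, ← Finset.sum_mul]
    have e2 := sw_sum hd
    have e3 := sw_phi_g hd
    calc (d : ℝ) * (sw_g d * sw_g c) =
        ((Nat.totient d : ℝ) * ∑ k ∈ d.divisors, sw_g k) * (sw_g d * sw_g c) := by rw [e2]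
      _ = ((Nat.totient d : ℝ) * sw_g d) * ((∑ k ∈ d.divisors, sw_g k) * sw_g c) := by ring
      _ = _ := by rw [e3, one_mul]
  rw [h1, Finset.mul_sum, Finset.sum_congr rfl h2, ← Finset.sum_product']
  have hinj : Set.InjOn (fun p : ℕ × ℕ => p.2 * (p.1 / d)) (T ×ˢ d.divisors : Finset (ℕ × ℕ)) := by
    rintro ⟨m, k⟩ hp ⟨m', k'⟩ hp' heq
    rw [Finset.mem_coe, Finset.mem_product, hT, Finset.mem_filter] at hp hp'
    obtain ⟨⟨_, ⟨c, hc⟩, hs⟩, hk⟩ := hp
    obtain ⟨⟨_, ⟨c', hc'⟩, hs'⟩, hk'⟩ := hp'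
    simp only at hc hc' hs hs' hk hk' heq
    subst hc
    subst hc'
    rw [Nat.mul_div_cancel_left c hd0, Nat.mul_div_cancel_left c' hd0] at heq
    have hkd := Nat.dvd_of_mem_divisors hk
    have hkd' := Nat.dvd_of_mem_divisors hk'
    have g1 : (k * c).gcd d = k := by
      rw [Nat.Coprime.gcd_mul_right_cancel k (sw_coprime hs).symm]
      exact Nat.gcd_eq_left hkd
    have g2 : (k' * c').gcd d = k' := by
      rw [Nat.Coprime.gcd_mul_right_cancel k' (sw_coprime hs').symm]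
      exact Nat.gcd_eq_left hkd'
    have hkk : k = k' := by rw [← g1, ← g2, heq]
    subst hkk
    have hk0 : 0 < k := Nat.pos_of_mem_divisors hk
    have hcc : c = c' := Nat.eq_of_mul_eq_mul_left hk0 heq
    subst hcc
    rfl
  have h3 : ∑ p ∈ T ×ˢ d.divisors, sw_g (p.2 * (p.1 / d)) =
      ∑ n ∈ (T ×ˢ d.divisors).image (fun p : ℕ × ℕ => p.2 * (p.1 / d)), sw_g n := by
    rw [Finset.sum_image hinj]
  rw [h3]
  apply Finset.sum_le_sum_of_subset_of_nonneg
  · intro n hn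
    obtain ⟨⟨m, k⟩, hp, rfl⟩ := Finset.mem_image.1 hn
    rw [Finset.mem_product, hT, Finset.mem_filter, Finset.mem_Icc] at hp
    obtain ⟨⟨⟨hm1, hmD⟩, ⟨c, hc⟩, hs⟩, hk⟩ := hp
    simp only at hm1 hmD hc hs hk ⊢
    subst hc
    rw [Nat.mul_div_cancel_left c hd0, Finset.mem_Icc]
    have hk0 : 0 < k := Nat.pos_of_mem_divisors hk
    have hkd : k ≤ d := Nat.divisor_le hk
    have hc0 : 0 < c := by
      rcases Nat.eq_zero_or_pos c with h0 | h0
      · rw [h0, mul_zero] at hm1; omega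
      · exact h0
    exact ⟨Nat.mul_pos hk0 hc0, (Nat.mul_le_mul_right c hkd).trans hmD⟩
  · intro n _ _
    exact sw_g_nonneg n

/-! ### the lower bound for the mass -/

/-- the reciprocal as a monoid hom -/
noncomputable def sw_inv : ℕ →* ℝ where
  toFun n := (n : ℝ)⁻¹
  map_one' := by simp
  map_mul' a b := by push_cast; rw [mul_inv]

/-- the radical -/
def sw_rad (n : ℕ) : ℕ := ∏ p ∈ n.primeFactors, p

theorem sw_rad_primeFactors (n : ℕ) : (sw_rad n).primeFactors = n.primeFactors :=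
  Nat.primeFactors_prod (fun p hp => Nat.prime_of_mem_primeFactors hp)

theorem sw_rad_dvd (n : ℕ) : sw_rad n ∣ n := Nat.prod_primeFactors_dvd n

theorem sw_rad_squarefree (n : ℕ) : Squarefree (sw_rad n) := by
  unfold sw_rad
  apply Finset.squarefree_prod_of_pairwise_isCoprime
  · intro a ha b hb hab
    have ha' := Nat.prime_of_mem_primeFactors (Finset.mem_coe.1 ha)
    have hb' := Nat.prime_of_mem_primeFactors (Finset.mem_coe.1 hb)
    exact Nat.coprime_iff_isRelPrime.1 ((Nat.coprime_primes ha' hb').2 hab)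
  · intro p hp
    exact (Nat.prime_of_mem_primeFactors hp).prime.squarefree

theorem sw_phi (r : ℕ) : (Nat.totient r : ℝ) = r * ∏ p ∈ r.primeFactors, (1 - (p : ℝ)⁻¹) := by
  have h := Nat.totient_eq_mul_prod_factors r
  have h2 := congrArg (fun x : ℚ => (x : ℝ)) h
  push_cast at h2
  exact h2

theorem sw_fiber (D r : ℕ) :
    ∑ n ∈ (Icc 1 D).filter (fun n => sw_rad n = r), (n : ℝ)⁻¹ ≤ sw_g r := by
  by_cases hne : ((Icc 1 D).filter (fun n => sw_rad n = r)).Nonempty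
  · obtain ⟨n0, hn0⟩ := hne
    have hrs : Squarefree r := by
      rw [Finset.mem_filter] at hn0
      rw [← hn0.2]
      exact sw_rad_squarefree n0
    have hr0 : 0 < r := Nat.pos_of_ne_zero hrs.ne_zero
    have hr0' : (0 : ℝ) < r := by exact_mod_cast hr0
    have hsum := (EulerProduct.summable_and_hasSum_factoredNumbers_prod_filter_prime_geometric
      (f := sw_inv) (fun {p} hp => by
        show ‖((p : ℝ))⁻¹‖ < 1
        rw [norm_inv, Real.norm_natCast]
        have : (1 : ℝ) < p := by exact_mod_cast hp.one_lt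
        exact inv_lt_one_of_one_lt₀ this) r.primeFactors).2
    have hsum' : HasSum ((Nat.factoredNumbers r.primeFactors).indicator (fun n => sw_inv n))
        (∏ p ∈ r.primeFactors with p.Prime, (1 - sw_inv p)⁻¹) :=
      hasSum_subtype_iff_indicator.1 hsum
    rw [Finset.filter_true_of_mem (fun p hp => Nat.prime_of_mem_primeFactors hp)] at hsum'
    set Fb := (Icc 1 D).filter (fun n => sw_rad n = r) with hFb
    have hdvd : ∀ n ∈ Fb, r ∣ n := by
      intro n hn
      rw [hFb, Finset.mem_filter] at hn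
      rw [← hn.2]
      exact sw_rad_dvd n
    have hinj : Set.InjOn (fun n => n / r) Fb := by
      intro a ha b hb hab
      obtain ⟨a', rfl⟩ := hdvd a ha
      obtain ⟨b', rfl⟩ := hdvd b hb
      simp only [Nat.mul_div_cancel_left _ hr0] at hab
      rw [hab]
    have h1 : ∑ n ∈ Fb, (n : ℝ)⁻¹ = (r : ℝ)⁻¹ * ∑ k ∈ Fb.image (fun n => n / r),
        (Nat.factoredNumbers r.primeFactors).indicator (fun n => sw_inv n) k := by
      rw [Finset.sum_image hinj, Finset.mul_sum]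
      refine Finset.sum_congr rfl fun n hn => ?_
      have hn' := hn
      rw [hFb, Finset.mem_filter, Finset.mem_Icc] at hn'
      obtain ⟨c, hc⟩ := hdvd n hn
      have hmem : n / r ∈ Nat.factoredNumbers r.primeFactors := by
        rw [Nat.mem_factoredNumbers']
        intro p hp hpd
        rw [← hn'.2, sw_rad_primeFactors]
        exact Nat.mem_primeFactors.2 ⟨hp, hpd.trans (Nat.div_dvd_of_dvd (hdvd n hn)), by omega⟩
      rw [Set.indicator_of_mem hmem]
      show (n : ℝ)⁻¹ = (r : ℝ)⁻¹ * ((n / r : ℕ) : ℝ)⁻¹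
      rw [hc, Nat.mul_div_cancel_left c hr0]
      push_cast
      rw [mul_inv]
    rw [h1]
    have h2 := sum_le_hasSum (Fb.image (fun n => n / r)) (fun i _ => by
      apply Set.indicator_nonneg
      intro x _
      show (0 : ℝ) ≤ (x : ℝ)⁻¹
      positivity) hsum'
    refine (mul_le_mul_of_nonneg_left h2 (by positivity)).trans (le_of_eq ?_)
    unfold sw_g
    rw [if_pos hrs, sw_phi r, Finset.prod_inv_distrib, one_div, mul_inv]
    rfl
  · rw [Finset.not_nonempty_iff_eq_empty] at hne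
    rw [hne, Finset.sum_empty]
    exact sw_g_nonneg r

theorem sw_G_ge (D : ℕ) (hD : 1 ≤ D) : Real.log D ≤ sw_G D := by
  have h1 : Real.log D ≤ ∑ n ∈ Icc 1 D, (n : ℝ)⁻¹ := by
    have h2 := log_add_one_le_harmonic D
    rw [harmonic_eq_sum_Icc] at h2
    push_cast at h2
    have h3 : Real.log D ≤ Real.log ((D : ℝ) + 1) :=
      Real.log_le_log (by exact_mod_cast hD) (by linarith)
    linarith
  refine h1.trans ?_
  have hmaps : ∀ n ∈ Icc 1 D, sw_rad n ∈ Icc 1 D := by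
    intro n hn
    rw [Finset.mem_Icc] at hn ⊢
    have h2 := Nat.le_of_dvd (by omega) (sw_rad_dvd n)
    have h3 : 0 < sw_rad n := Nat.pos_of_ne_zero (sw_rad_squarefree n).ne_zero
    omega
  rw [← Finset.sum_fiberwise_of_maps_to hmaps]
  exact Finset.sum_le_sum fun r _ => sw_fiber D r

/-! ### the quadratic form -/

/-- the weights -/
noncomputable def sw_l (D d : ℕ) : ℝ :=
  (d : ℝ) * (μ d : ℝ) * (sw_G D)⁻¹ * ∑ m ∈ (Icc 1 D).filter (fun m => d ∣ m), sw_g m

theorem sw_moebius_sum (D r m : ℕ) (hr : r ∈ Icc 1 D) (hm : m ∈ Icc 1 D) (hs : Squarefree m) :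
    ∑ d ∈ Icc 1 D, (if r ∣ d ∧ d ∣ m then (μ d : ℝ) else 0) =
      if m = r then (μ r : ℝ) else 0 := by
  rw [Finset.mem_Icc] at hr hm
  by_cases hrm : r ∣ m
  · obtain ⟨c, rfl⟩ := hrm
    have hr0 : 0 < r := hr.1
    have hc0 : c ≠ 0 := fun h => by rw [h, mul_zero] at hm; omega
    have hcop := sw_coprime hs
    rw [← Finset.sum_filter]
    have himg : (Icc 1 D).filter (fun d => r ∣ d ∧ d ∣ r * c) =
        c.divisors.image (fun d => r * d) := by
      ext d
      rw [Finset.mem_filter, Finset.mem_image, Finset.mem_Icc]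
      constructor
      · rintro ⟨_, ⟨d', rfl⟩, h2⟩
        exact ⟨d', Nat.mem_divisors.2 ⟨Nat.dvd_of_mul_dvd_mul_left hr0 h2, hc0⟩, rfl⟩
      · rintro ⟨d', hd', rfl⟩
        have hdc := Nat.dvd_of_mem_divisors hd'
        have hd0 : 0 < d' := Nat.pos_of_mem_divisors hd'
        refine ⟨⟨Nat.mul_pos hr0 hd0, ?_⟩, Dvd.intro _ rfl, Nat.mul_dvd_mul_left r hdc⟩
        exact (Nat.mul_le_mul_left r (Nat.le_of_dvd (Nat.pos_of_ne_zero hc0) hdc)).trans hm.2
    rw [himg, Finset.sum_image (fun a _ b _ hab => Nat.eq_of_mul_eq_mul_left hr0 hab)]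
    have h1 : ∀ d ∈ c.divisors, ((μ (r * d) : ℤ) : ℝ) = (μ r : ℝ) * (μ d : ℝ) := by
      intro d hd
      have : Nat.Coprime r d := Nat.Coprime.coprime_dvd_right (Nat.dvd_of_mem_divisors hd) hcop
      rw [ArithmeticFunction.isMultiplicative_moebius.map_mul_of_coprime this]
      push_cast
      ring
    rw [Finset.sum_congr rfl h1, ← Finset.mul_sum]
    have h2 : ∑ d ∈ c.divisors, (μ d : ℤ) = if c = 1 then 1 else 0 := by
      rw [← ArithmeticFunction.coe_mul_zeta_apply, ArithmeticFunction.moebius_mul_coe_zeta,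
        ArithmeticFunction.one_apply]
    have h3 : ∑ d ∈ c.divisors, ((μ d : ℤ) : ℝ) = if c = 1 then 1 else 0 := by
      have := congrArg (fun x : ℤ => (x : ℝ)) h2
      push_cast at this
      exact this
    rw [h3]
    by_cases hc1 : c = 1
    · rw [if_pos hc1, hc1, mul_one, if_pos (mul_one r)]
    · have : r * c ≠ r := fun h => hc1 (Nat.eq_of_mul_eq_mul_left hr0 (by rw [h, mul_one]))
      rw [if_neg hc1, if_neg this, mul_zero]
  · have h1 : m ≠ r := fun h => hrm (h ▸ dvd_refl _)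
    rw [if_neg h1]
    apply Finset.sum_eq_zero
    intro d _
    rw [if_neg]
    rintro ⟨h2, h3⟩
    exact hrm (h2.trans h3)

theorem sw_Y (D r : ℕ) (hr : r ∈ Icc 1 D) :
    ∑ d ∈ Icc 1 D, (if r ∣ d then sw_l D d / d else 0) = (μ r : ℝ) * sw_g r * (sw_G D)⁻¹ := by
  have h1 : ∀ d ∈ Icc 1 D, (if r ∣ d then sw_l D d / d else 0) =
      ∑ m ∈ Icc 1 D, (sw_G D)⁻¹ * (sw_g m * (if r ∣ d ∧ d ∣ m then (μ d : ℝ) else 0)) := by
    intro d hd
    rw [Finset.mem_Icc] at hd
    have hd0 : (d : ℝ) ≠ 0 := by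
      have : 0 < d := hd.1
      exact_mod_cast this.ne'
    by_cases hrd : r ∣ d
    · rw [if_pos hrd]
      unfold sw_l
      rw [Finset.sum_filter, mul_assoc, mul_assoc, mul_div_assoc,
        mul_comm ((μ d : ℝ)) _, mul_assoc, Finset.sum_mul, Finset.mul_sum, Finset.sum_div,
        Finset.mul_sum]
      refine Finset.sum_congr rfl fun m _ => ?_
      by_cases hdm : d ∣ m
      · rw [if_pos hdm, if_pos ⟨hrd, hdm⟩]
        field_simp
      · rw [if_neg hdm, if_neg (fun h => hdm h.2)]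
        simp
    · rw [if_neg hrd]
      symm
      apply Finset.sum_eq_zero
      intro m _
      rw [if_neg (fun h => hrd h.1)]
      simp
  rw [Finset.sum_congr rfl h1, Finset.sum_comm]
  have h2 : ∀ m ∈ Icc 1 D, ∑ d ∈ Icc 1 D,
      (sw_G D)⁻¹ * (sw_g m * (if r ∣ d ∧ d ∣ m then (μ d : ℝ) else 0)) =
      if m = r then (sw_G D)⁻¹ * (sw_g r * (μ r : ℝ)) else 0 := by
    intro m hm
    rw [← Finset.mul_sum, ← Finset.mul_sum]
    by_cases hs : Squarefree m
    · rw [sw_moebius_sum D r m hr hm hs]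
      by_cases hmr : m = r
      · rw [if_pos hmr, if_pos hmr, hmr]
      · rw [if_neg hmr, if_neg hmr]
        simp
    · have hg : sw_g m = 0 := by
        unfold sw_g
        rw [if_neg hs]
      rw [hg, zero_mul, mul_zero]
      by_cases hmr : m = r
      · rw [if_pos hmr, ← hmr, hg]; simp
      · rw [if_neg hmr]
  rw [Finset.sum_congr rfl h2, Finset.sum_ite_eq' (Icc 1 D) r, if_pos hr]
  ring

theorem sw_lcm (D d e : ℕ) (hd : d ∈ Icc 1 D) (he : e ∈ Icc 1 D) :
    1 / (Nat.lcm d e : ℝ) = ∑ r ∈ Icc 1 D, (if r ∣ d then 1 / (d : ℝ) else 0) *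
      ((if r ∣ e then 1 / (e : ℝ) else 0) * (Nat.totient r : ℝ)) := by
  rw [Finset.mem_Icc] at hd he
  have hd0 : (0 : ℝ) < d := by
    have : 0 < d := hd.1
    exact_mod_cast this
  have he0 : (0 : ℝ) < e := by
    have : 0 < e := he.1
    exact_mod_cast this
  have h1 : ∑ r ∈ Icc 1 D, (if r ∣ d then 1 / (d : ℝ) else 0) *
      ((if r ∣ e then 1 / (e : ℝ) else 0) * (Nat.totient r : ℝ)) =
      1 / ((d : ℝ) * e) * ∑ r ∈ (Nat.gcd d e).divisors, (Nat.totient r : ℝ) := by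
    have hg0 : 0 < Nat.gcd d e := Nat.gcd_pos_of_pos_left _ hd.1
    have hdiv : (Nat.gcd d e).divisors = (Icc 1 D).filter (fun r => r ∣ d ∧ r ∣ e) := by
      ext r
      rw [Nat.mem_divisors, Finset.mem_filter, Finset.mem_Icc, Nat.dvd_gcd_iff]
      constructor
      · rintro ⟨⟨h2, h3⟩, _⟩
        exact ⟨⟨Nat.pos_of_dvd_of_pos h2 hd.1, (Nat.le_of_dvd hd.1 h2).trans hd.2⟩, h2, h3⟩
      · rintro ⟨_, h2, h3⟩
        exact ⟨⟨h2, h3⟩, hg0.ne'⟩
    rw [hdiv, Finset.sum_filter, Finset.mul_sum]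
    refine Finset.sum_congr rfl fun r _ => ?_
    by_cases h2 : r ∣ d
    · by_cases h3 : r ∣ e
      · rw [if_pos h2, if_pos h3, if_pos ⟨h2, h3⟩]
        field_simp
      · rw [if_neg h3, if_neg (show ¬ (r ∣ d ∧ r ∣ e) from fun h => h3 h.2)]
        simp
    · rw [if_neg h2, if_neg (show ¬ (r ∣ d ∧ r ∣ e) from fun h => h2 h.1)]
      simp
  rw [h1]
  have h2 : ∑ r ∈ (Nat.gcd d e).divisors, (Nat.totient r : ℝ) = (Nat.gcd d e : ℝ) := by
    have := Nat.sum_totient (Nat.gcd d e)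
    exact_mod_cast this
  rw [h2]
  have h3 : (Nat.gcd d e : ℝ) * (Nat.lcm d e : ℝ) = (d : ℝ) * e := by
    exact_mod_cast Nat.gcd_mul_lcm d e
  have hl0 : (0 : ℝ) < Nat.lcm d e := by
    exact_mod_cast Nat.lcm_pos hd.1 he.1
  have hg0 : (0 : ℝ) < Nat.gcd d e := by
    exact_mod_cast Nat.gcd_pos_of_pos_left _ hd.1
  rw [← h3]
  field_simp

theorem sw_form (D : ℕ) (hD : 1 ≤ D) :
    ∑ d ∈ Icc 1 D, ∑ e ∈ Icc 1 D, sw_l D d * sw_l D e / (Nat.lcm d e : ℝ) = (sw_G D)⁻¹ := by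
  have hG := sw_G_pos hD
  have h1 : ∀ d ∈ Icc 1 D, ∀ e ∈ Icc 1 D, sw_l D d * sw_l D e / (Nat.lcm d e : ℝ) =
      ∑ r ∈ Icc 1 D, (Nat.totient r : ℝ) * ((if r ∣ d then sw_l D d / d else 0) *
        (if r ∣ e then sw_l D e / e else 0)) := by
    intro d hd e he
    rw [div_eq_mul_one_div, sw_lcm D d e hd he, Finset.mul_sum]
    refine Finset.sum_congr rfl fun r _ => ?_
    split_ifs <;> ring
  have h2 : ∑ d ∈ Icc 1 D, ∑ e ∈ Icc 1 D, sw_l D d * sw_l D e / (Nat.lcm d e : ℝ) =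
      ∑ r ∈ Icc 1 D, (Nat.totient r : ℝ) *
        (∑ d ∈ Icc 1 D, (if r ∣ d then sw_l D d / d else 0)) ^ 2 := by
    calc ∑ d ∈ Icc 1 D, ∑ e ∈ Icc 1 D, sw_l D d * sw_l D e / (Nat.lcm d e : ℝ)
        = ∑ d ∈ Icc 1 D, ∑ e ∈ Icc 1 D, ∑ r ∈ Icc 1 D, (Nat.totient r : ℝ) *
          ((if r ∣ d then sw_l D d / d else 0) * (if r ∣ e then sw_l D e / e else 0)) :=
          Finset.sum_congr rfl fun d hd => Finset.sum_congr rfl fun e he => h1 d hd e he
      _ = ∑ r ∈ Icc 1 D, ∑ d ∈ Icc 1 D, ∑ e ∈ Icc 1 D, (Nat.totient r : ℝ) *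
          ((if r ∣ d then sw_l D d / d else 0) * (if r ∣ e then sw_l D e / e else 0)) := by
          rw [Finset.sum_comm]
          rw [Finset.sum_congr rfl fun e _ => Finset.sum_comm]
          rw [Finset.sum_comm]
          exact Finset.sum_congr rfl fun r _ => Finset.sum_comm
      _ = _ := by
          refine Finset.sum_congr rfl fun r _ => ?_
          rw [sq, Finset.sum_mul_sum, Finset.mul_sum]
          refine Finset.sum_congr rfl fun d _ => ?_
          rw [Finset.mul_sum]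
  rw [h2]
  have h3 : ∀ r ∈ Icc 1 D, (Nat.totient r : ℝ) *
        (∑ d ∈ Icc 1 D, (if r ∣ d then sw_l D d / d else 0)) ^ 2 =
        sw_g r * ((sw_G D)⁻¹) ^ 2 := by
    intro r hr
    rw [sw_Y D r hr]
    by_cases hs : Squarefree r
    · have e1 := sw_phi_g hs
      have e2 : ((μ r : ℤ) : ℝ) ^ 2 = 1 := by
        have := ArithmeticFunction.moebius_sq_eq_one_of_squarefree hs
        exact_mod_cast this
      calc (Nat.totient r : ℝ) * ((μ r : ℝ) * sw_g r * (sw_G D)⁻¹) ^ 2 =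
          ((μ r : ℝ) ^ 2) * ((Nat.totient r : ℝ) * sw_g r) * (sw_g r * ((sw_G D)⁻¹) ^ 2) := by ring
        _ = _ := by rw [e1, e2, one_mul, one_mul]
    · have hg : sw_g r = 0 := by
        unfold sw_g
        rw [if_neg hs]
      rw [hg]
      ring
  rw [Finset.sum_congr rfl h3, ← Finset.sum_mul]
  show sw_G D * ((sw_G D)⁻¹) ^ 2 = (sw_G D)⁻¹
  field_simp

/-- task SELW -/
theorem sel_weights (D : ℕ) (hD : 2 ≤ D) : ∃ l : ℕ → ℝ, l 1 = 1 ∧ (∀ d, |l d| ≤ 1) ∧
    (∀ d, D < d → l d = 0) ∧ l 0 = 0 ∧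
    0 ≤ ∑ d ∈ Icc 1 D, ∑ e ∈ Icc 1 D, l d * l e / (Nat.lcm d e : ℝ) ∧
    ∑ d ∈ Icc 1 D, ∑ e ∈ Icc 1 D, l d * l e / (Nat.lcm d e : ℝ) ≤ 1 / Real.log D := by
  have hD1 : 1 ≤ D := by omega
  have hG := sw_G_pos hD1
  refine ⟨sw_l D, ?_, ?_, ?_, ?_, ?_, ?_⟩
  · unfold sw_l
    have : (Icc 1 D).filter (fun m => 1 ∣ m) = Icc 1 D :=
      Finset.filter_true_of_mem (fun m _ => one_dvd m)
    rw [this]
    show ((1 : ℕ) : ℝ) * ((μ 1 : ℤ) : ℝ) * (sw_G D)⁻¹ * sw_G D = 1
    rw [ArithmeticFunction.moebius_apply_one]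
    push_cast
    field_simp
  · intro d
    by_cases hs : Squarefree d
    · have h1 := sw_key D d hs
      have hnn : 0 ≤ ∑ m ∈ (Icc 1 D).filter (fun m => d ∣ m), sw_g m :=
        Finset.sum_nonneg fun m _ => sw_g_nonneg m
      have h2 : |((μ d : ℤ) : ℝ)| = 1 := by
        have := ArithmeticFunction.moebius_sq_eq_one_of_squarefree hs
        have h3 : ((μ d : ℤ) : ℝ) ^ 2 = 1 := by exact_mod_cast this
        rw [← sq_abs] at h3
        nlinarith [abs_nonneg ((μ d : ℤ) : ℝ)]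
      unfold sw_l
      rw [abs_mul, abs_mul, abs_mul, h2, abs_of_nonneg (Nat.cast_nonneg d), mul_one,
        abs_of_pos (inv_pos.2 hG), abs_of_nonneg hnn]
      calc (d : ℝ) * (sw_G D)⁻¹ * ∑ m ∈ (Icc 1 D).filter (fun m => d ∣ m), sw_g m =
          (sw_G D)⁻¹ * ((d : ℝ) * ∑ m ∈ (Icc 1 D).filter (fun m => d ∣ m), sw_g m) := by ring
        _ ≤ (sw_G D)⁻¹ * sw_G D := mul_le_mul_of_nonneg_left h1 (inv_pos.2 hG).le
        _ = 1 := inv_mul_cancel₀ hG.ne'
    · unfold sw_l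
      rw [ArithmeticFunction.moebius_eq_zero_of_not_squarefree hs]
      simp
  · intro d hd
    unfold sw_l
    have : (Icc 1 D).filter (fun m => d ∣ m) = ∅ := by
      apply Finset.filter_false_of_mem
      intro m hm hdm
      rw [Finset.mem_Icc] at hm
      have := Nat.le_of_dvd (by omega) hdm
      omega
    rw [this, Finset.sum_empty, mul_zero]
  · unfold sw_l
    simp
  · rw [sw_form D hD1]
    exact (inv_pos.2 hG).le
  · rw [sw_form D hD1, one_div]
    have hlog : 0 < Real.log D := Real.log_pos (by exact_mod_cast (by omega : 1 < D))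
    exact inv_anti₀ hlog (sw_G_ge D hD1)

end Pool.Agent.H376R2.MR
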